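import Mathlib
import Pool.Agent.H963J.Basic
import Pool.Agent.H963J.Core

set_option autoImplicit false

/-!
# Walsh expansion and averages over the permutations of the variables
-/

namespace Pool.Agent.X230.FS

open Finset Pool.Agent.H963J

noncomputable section

lemma sg_sq (b : Bool) : sg b ^ 2 = 1 := by rw [sq, sg_mul_self]

/-- completeness of the characters -/
lemma sum_chi_mul {m : ℕ} (x y : Fin m → Bool) :
    ∑ T : Finset (Fin m), chi x T * chi y T = if x = y then (2 : ℝ) ^ m else 0 := by
  have h1 : ∀ T : Finset (Fin m), chi x T * chi y T = ∏ t ∈ T, (sg (x t) * sg (y t)) := by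
    intro T
    unfold chi
    rw [Finset.prod_mul_distrib]
  simp_rw [h1]
  have h2 := (Finset.prod_one_add (f := fun t => sg (x t) * sg (y t)) (univ : Finset (Fin m))).symm
  rw [Finset.powerset_univ] at h2
  rw [h2]
  split_ifs with h
  · subst h
    simp_rw [sg_mul_self]
    rw [Finset.prod_const, Finset.card_univ, Fintype.card_fin]
    norm_num
  · obtain ⟨i, hi⟩ : ∃ i, x i ≠ y i := by
      by_contra hc
      push Not at hc
      exact h (funext hc)
    apply Finset.prod_eq_zero (Finset.mem_univ i)
    revert hi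
    cases x i <;> cases y i <;> simp [sg]

/-- the Walsh coefficient -/
def hat {m : ℕ} (e : (Fin m → Bool) → ℝ) (T : Finset (Fin m)) : ℝ :=
  (∑ x, e x * chi x T) / 2 ^ m

lemma parseval {m : ℕ} (e : (Fin m → Bool) → ℝ) :
    ∑ T, hat e T ^ 2 = (∑ x, e x ^ 2) / 2 ^ m := by
  have h1 : ∀ T, hat e T ^ 2 = (∑ x, ∑ y, (e x * e y) * (chi x T * chi y T)) / (2 ^ m * 2 ^ m) := by
    intro T
    unfold hat
    rw [div_pow, sq (∑ x, e x * chi x T), Finset.sum_mul_sum, sq]
    congr 1
    refine Finset.sum_congr rfl fun x _ => Finset.sum_congr rfl fun y _ => ?_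
    ring
  simp_rw [h1]
  rw [← Finset.sum_div, Finset.sum_comm]
  have h2 : ∀ x : Fin m → Bool, ∑ T : Finset (Fin m), ∑ y, (e x * e y) * (chi x T * chi y T) =
      e x ^ 2 * 2 ^ m := by
    intro x
    rw [Finset.sum_comm]
    have h3 : ∀ y : Fin m → Bool, ∑ T : Finset (Fin m), (e x * e y) * (chi x T * chi y T) =
        if x = y then e x * e y * 2 ^ m else 0 := by
      intro y
      rw [← Finset.mul_sum, sum_chi_mul]
      split_ifs with h
      · rfl
      · rw [mul_zero]
    simp_rw [h3]
    rw [Finset.sum_ite_eq, if_pos (Finset.mem_univ _)]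
    ring
  simp_rw [h2]
  rw [← Finset.sum_mul]
  have : (2 : ℝ) ^ m ≠ 0 := by positivity
  field_simp

lemma expand {m : ℕ} (e : (Fin m → Bool) → ℝ) (x : Fin m → Bool) :
    e x = ∑ T, hat e T * chi x T := by
  have h1 : ∀ T, hat e T * chi x T = (∑ y, e y * (chi y T * chi x T)) / 2 ^ m := by
    intro T
    unfold hat
    rw [div_mul_eq_mul_div, Finset.sum_mul]
    congr 1
    exact Finset.sum_congr rfl fun y _ => by ring
  simp_rw [h1]
  rw [← Finset.sum_div, Finset.sum_comm]
  have h2 : ∀ y : Fin m → Bool, ∑ T : Finset (Fin m), e y * (chi y T * chi x T) =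
      if y = x then e y * 2 ^ m else 0 := by
    intro y
    rw [← Finset.mul_sum, sum_chi_mul]
    split_ifs with h
    · rfl
    · rw [mul_zero]
  simp_rw [h2]
  rw [Finset.sum_ite_eq', if_pos (Finset.mem_univ _)]
  have : (2 : ℝ) ^ m ≠ 0 := by positivity
  field_simp

/-- low Walsh coefficients of a balanced function vanish -/
lemma hat_bal {k c : ℕ} {g : (Fin k → Bool) → Bool} (hg : Balanced c g) (U : Finset (Fin k))
    (hU : U.card ≤ c) : hat (fun u => sg (g u)) U = 0 := by
  unfold hat
  -- split the sum over the classes of the restriction to `U`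
  have h1 : ∀ z : Fin k → Bool,
      ∑ x ∈ univ.filter (fun x : Fin k → Bool => ∀ j ∈ U, x j = z j), sg (g x) = 0 :=
    fun z => sum_sg_of_card _ g (hg U hU z)
  have h2 : ∑ z : Fin k → Bool, ∑ x ∈ univ.filter (fun x : Fin k → Bool => ∀ j ∈ U, x j = z j),
      sg (g x) * chi x U = 0 := by
    apply Finset.sum_eq_zero
    intro z _
    have h3 : ∀ x ∈ univ.filter (fun x : Fin k → Bool => ∀ j ∈ U, x j = z j),
        sg (g x) * chi x U = sg (g x) * chi z U := by
      intro x hx
      have hx := (Finset.mem_filter.1 hx).2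
      congr 1
      unfold chi
      exact Finset.prod_congr rfl fun t ht => by rw [hx t ht]
    rw [Finset.sum_congr rfl h3, ← Finset.sum_mul, h1 z, zero_mul]
  have h4 : ∑ z : Fin k → Bool, ∑ x ∈ univ.filter (fun x : Fin k → Bool => ∀ j ∈ U, x j = z j),
      sg (g x) * chi x U = ∑ x : Fin k → Bool, ((univ.filter
        (fun z : Fin k → Bool => ∀ j ∈ U, x j = z j)).card : ℝ) * (sg (g x) * chi x U) := by
    simp_rw [Finset.sum_filter]
    rw [Finset.sum_comm]
    refine Finset.sum_congr rfl fun x _ => ?_
    rw [← Finset.sum_filter, Finset.sum_const, nsmul_eq_mul]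
  have h5 : ∀ x : Fin k → Bool, (univ.filter (fun z : Fin k → Bool => ∀ j ∈ U, x j = z j)).card =
      (univ.filter (fun z : Fin k → Bool => ∀ j ∈ U, (fun _ => true : Fin k → Bool) j = z j)).card := by
    intro x
    refine Finset.card_bij (fun z _ => fun j => if x j = true then z j else !(z j)) ?_ ?_ ?_
    · intro z hz
      have hz := (Finset.mem_filter.1 hz).2
      refine Finset.mem_filter.2 ⟨Finset.mem_univ _, fun j hj => ?_⟩
      have := hz j hj
      show true = if x j = true then z j else !(z j)
      rw [← this]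
      cases x j <;> simp
    · intro z _ z' _ h
      funext j
      have := congrFun h j
      cases hx : x j <;> simp [hx] at this <;> exact this
    · intro z hz
      have hz := (Finset.mem_filter.1 hz).2
      refine ⟨fun j => if x j = true then z j else !(z j), Finset.mem_filter.2
        ⟨Finset.mem_univ _, fun j hj => ?_⟩, ?_⟩
      · have := hz j hj
        show x j = if x j = true then z j else !(z j)
        rw [← this]
        cases x j <;> simp
      · funext j
        cases hx : x j <;> simp [hx]
  rw [h4] at h2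
  simp_rw [h5] at h2
  rw [← Finset.mul_sum] at h2
  rcases mul_eq_zero.1 h2 with h | h
  · exfalso
    have h6 : (fun _ => true : Fin k → Bool) ∈ univ.filter
        (fun z : Fin k → Bool => ∀ j ∈ U, (fun _ => true : Fin k → Bool) j = z j) :=
      Finset.mem_filter.2 ⟨Finset.mem_univ _, fun _ _ => rfl⟩
    have h7 : 0 < (univ.filter
        (fun z : Fin k → Bool => ∀ j ∈ U, (fun _ => true : Fin k → Bool) j = z j)).card :=
      Finset.card_pos.2 ⟨_, h6⟩
    have h8 := Nat.cast_eq_zero.1 h
    omega
  · rw [h, zero_div]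

lemma chi_comp {m k : ℕ} {s : Fin k → Fin m} (hs : Function.Injective s) (U : Finset (Fin k))
    (x : Fin m → Bool) : chi (fun h => x (s h)) U = chi x (U.image s) := by
  unfold chi
  rw [Finset.prod_image (fun a _ b _ h => hs h)]

/-- the inner product of a target with `e` -/
lemma inner_tgt {m k c : ℕ} {g : (Fin k → Bool) → Bool} (hg : Balanced c g) {s : Fin k → Fin m}
    (hs : Function.Injective s) (e : (Fin m → Bool) → ℝ) :
    ((∑ x, sg (tgt g s x) * e x) / 2 ^ m) ^ 2 ≤
      ∑ U ∈ univ.filter (fun U : Finset (Fin k) => c < U.card), hat e (U.image s) ^ 2 := by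
  have h1 : (∑ x, sg (tgt g s x) * e x) / 2 ^ m =
      ∑ U ∈ univ.filter (fun U : Finset (Fin k) => c < U.card),
        hat (fun u => sg (g u)) U * hat e (U.image s) := by
    have h2 : ∀ x : Fin m → Bool, sg (tgt g s x) * e x =
        ∑ U, hat (fun u => sg (g u)) U * (e x * chi x (U.image s)) := by
      intro x
      have h3 := expand (fun u => sg (g u)) (fun h => x (s h))
      unfold tgt
      rw [h3, Finset.sum_mul]
      refine Finset.sum_congr rfl fun U _ => ?_
      rw [chi_comp hs]
      ring
    simp_rw [h2]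
    rw [Finset.sum_comm, Finset.sum_div, Finset.sum_filter]
    refine Finset.sum_congr rfl fun U _ => ?_
    split_ifs with hU
    · rw [← Finset.mul_sum, mul_div_assoc]
      rfl
    · rw [← Finset.mul_sum, hat_bal hg U (by omega), zero_mul, zero_div]
  rw [h1]
  refine (Finset.sum_mul_sq_le_sq_mul_sq _ _ _).trans ?_
  have h4 : ∑ U ∈ univ.filter (fun U : Finset (Fin k) => c < U.card),
      hat (fun u => sg (g u)) U ^ 2 ≤ 1 := by
    refine (Finset.sum_le_sum_of_subset_of_nonneg (Finset.subset_univ _)
      (fun U _ _ => sq_nonneg _)).trans ?_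
    rw [parseval]
    simp_rw [sg_sq]
    rw [Finset.sum_const, Finset.card_univ, Fintype.card_fun, Fintype.card_bool, Fintype.card_fin]
    simp
  have h5 : 0 ≤ ∑ U ∈ univ.filter (fun U : Finset (Fin k) => c < U.card),
      hat e (U.image s) ^ 2 := Finset.sum_nonneg fun _ _ => sq_nonneg _
  calc _ ≤ 1 * ∑ U ∈ univ.filter (fun U : Finset (Fin k) => c < U.card),
      hat e (U.image s) ^ 2 := mul_le_mul_of_nonneg_right h4 h5
    _ = _ := one_mul _

end

end Pool.Agent.X230.FS
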