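import Mathlib
import Pool.Agent.X230.FS.Walsh

set_option autoImplicit false

/-!
# Averages over the permutations of the variables, and linear spaces
-/

namespace Pool.Agent.X230.FS

open Finset Pool.Agent.H963J

noncomputable section

lemma exists_perm {m : ℕ} (A T : Finset (Fin m)) (h : A.card = T.card) :
    ∃ τ : Equiv.Perm (Fin m), A.image τ = T := by
  classical
  let e : {x // x ∈ A} ≃ {x // x ∈ T} := Finset.equivOfCardEq h
  refine ⟨e.extendSubtype, ?_⟩
  apply Finset.eq_of_subset_of_card_le
  · intro y hy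
    obtain ⟨x, hx, rfl⟩ := Finset.mem_image.1 hy
    exact e.extendSubtype_mem x hx
  · rw [Finset.card_image_of_injective _ (Equiv.injective _), h]

/-- the sum over the permutations of a function of the image of a set -/
lemma perm_sum {m : ℕ} (F : Finset (Fin m) → ℝ) (A : Finset (Fin m)) :
    (∑ σ : Equiv.Perm (Fin m), F (A.image σ)) =
      (m.factorial : ℝ) / (m.choose A.card : ℝ) *
        ∑ T ∈ univ.filter (fun T : Finset (Fin m) => T.card = A.card), F T := by
  classical
  set c : Finset (Fin m) → ℕ := fun T =>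
    (univ.filter (fun σ : Equiv.Perm (Fin m) => A.image σ = T)).card with hc
  have h1 : ∀ T : Finset (Fin m), T.card = A.card → c T = c A := by
    intro T hT
    obtain ⟨τ, hτ⟩ := exists_perm A T hT.symm
    refine (Finset.card_bij (fun σ _ => τ * σ) ?_ ?_ ?_).symm
    · intro σ hσ
      have hσ := (Finset.mem_filter.1 hσ).2
      refine Finset.mem_filter.2 ⟨Finset.mem_univ _, ?_⟩
      rw [Equiv.Perm.coe_mul, ← Finset.image_image, hσ, hτ]
    · intro σ _ σ' _ h
      exact mul_left_cancel h
    · intro σ hσ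
      have hσ := (Finset.mem_filter.1 hσ).2
      refine ⟨τ⁻¹ * σ, Finset.mem_filter.2 ⟨Finset.mem_univ _, ?_⟩, by
        rw [mul_inv_cancel_left]⟩
      rw [Equiv.Perm.coe_mul, ← Finset.image_image, hσ, ← hτ, Finset.image_image,
        ← Equiv.Perm.coe_mul, inv_mul_cancel, Equiv.Perm.coe_one, Finset.image_id]
  have h2 : ∀ G : Finset (Fin m) → ℝ, (∑ σ : Equiv.Perm (Fin m), G (A.image σ)) =
      (c A : ℝ) * ∑ T ∈ univ.filter (fun T : Finset (Fin m) => T.card = A.card), G T := by
    intro G
    have h3 : ∀ σ ∈ (univ : Finset (Equiv.Perm (Fin m))), A.image σ ∈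
        univ.filter (fun T : Finset (Fin m) => T.card = A.card) := by
      intro σ _
      exact Finset.mem_filter.2 ⟨Finset.mem_univ _,
        Finset.card_image_of_injective _ σ.injective⟩
    rw [← Finset.sum_fiberwise_of_maps_to h3, Finset.mul_sum]
    refine Finset.sum_congr rfl fun T hT => ?_
    have hT := (Finset.mem_filter.1 hT).2
    rw [Finset.sum_congr rfl (g := fun _ => G T) (fun σ hσ => by
      rw [(Finset.mem_filter.1 hσ).2]), Finset.sum_const, nsmul_eq_mul]
    congr 1
    exact_mod_cast h1 T hT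
  have h4 := h2 (fun _ => 1)
  rw [Finset.sum_const, Finset.sum_const, Finset.card_univ, Fintype.card_perm, Fintype.card_fin,
    nsmul_eq_mul, nsmul_eq_mul, mul_one, mul_one] at h4
  have h5 : (univ.filter (fun T : Finset (Fin m) => T.card = A.card)).card = m.choose A.card := by
    have h6 : univ.filter (fun T : Finset (Fin m) => T.card = A.card) =
        Finset.powersetCard A.card univ := by
      ext T
      simp [Finset.mem_powersetCard]
    rw [h6, Finset.card_powersetCard, Finset.card_univ, Fintype.card_fin]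
  rw [h5] at h4
  have h7 : (m.choose A.card : ℝ) ≠ 0 := by
    have : A.card ≤ m := by
      have := Finset.card_le_univ A
      rwa [Fintype.card_fin] at this
    exact_mod_cast (Nat.choose_pos this).ne'
  rw [h2 F, h4]
  field_simp

/-- `C(k, j) / C(m, j)` decreases -/
lemma ratio_succ {k m j : ℕ} (hkm : k ≤ m) :
    (k.choose (j + 1) : ℝ) / (m.choose (j + 1) : ℝ) ≤ (k.choose j : ℝ) / (m.choose j : ℝ) := by
  by_cases hj : j + 1 ≤ m
  · have h1 : (0 : ℝ) < m.choose (j + 1) := by exact_mod_cast Nat.choose_pos hj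
    have h2 : (0 : ℝ) < m.choose j := by exact_mod_cast Nat.choose_pos (by omega)
    rw [div_le_div_iff₀ h1 h2]
    have h3 : k.choose (j + 1) * (j + 1) = k.choose j * (k - j) := Nat.choose_succ_right_eq k j
    have h4 : m.choose (j + 1) * (j + 1) = m.choose j * (m - j) := Nat.choose_succ_right_eq m j
    have h5 : k.choose (j + 1) * m.choose j * (j + 1) ≤ k.choose j * m.choose (j + 1) * (j + 1) := by
      calc k.choose (j + 1) * m.choose j * (j + 1) = (k.choose (j + 1) * (j + 1)) * m.choose j := by
            ring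
        _ = k.choose j * (k - j) * m.choose j := by rw [h3]
        _ ≤ k.choose j * (m - j) * m.choose j := by
            apply Nat.mul_le_mul_right
            apply Nat.mul_le_mul_left
            omega
        _ = k.choose j * (m.choose j * (m - j)) := by ring
        _ = k.choose j * (m.choose (j + 1) * (j + 1)) := by rw [h4]
        _ = _ := by ring
    have h6 := Nat.le_of_mul_le_mul_right h5 (by omega)
    exact_mod_cast h6
  · have h1 : k.choose (j + 1) = 0 := Nat.choose_eq_zero_of_lt (by omega)
    rw [h1, Nat.cast_zero, zero_div]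
    positivity

lemma ratio_mono {k m c : ℕ} (hkm : k ≤ m) (j : ℕ) (hj : c < j) :
    (k.choose j : ℝ) / (m.choose j : ℝ) ≤ (k.choose (c + 1) : ℝ) / (m.choose (c + 1) : ℝ) := by
  induction j with
  | zero => omega
  | succ j ih =>
    by_cases h : c < j
    · exact (ratio_succ hkm).trans (ih h)
    · have : j = c := by omega
      subst this
      exact le_rfl

lemma ratio_le_pow {k m : ℕ} (hkm : k ≤ m) (j : ℕ) :
    (k.choose j : ℝ) / (m.choose j : ℝ) ≤ ((k : ℝ) / m) ^ j := by
  induction j with
  | zero => simp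
  | succ j ih =>
    by_cases hj : j + 1 ≤ m
    · have h1 : (0 : ℝ) < m.choose (j + 1) := by exact_mod_cast Nat.choose_pos hj
      have h2 : (0 : ℝ) < m.choose j := by exact_mod_cast Nat.choose_pos (by omega)
      have hm0 : (0 : ℝ) < m := by
        have : 0 < m := by omega
        exact_mod_cast this
      have h3 : (k.choose (j + 1) : ℝ) * (j + 1) = k.choose j * ((k - j : ℕ) : ℝ) := by
        exact_mod_cast Nat.choose_succ_right_eq k j
      have h4 : (m.choose (j + 1) : ℝ) * (j + 1) = m.choose j * ((m - j : ℕ) : ℝ) := by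
        exact_mod_cast Nat.choose_succ_right_eq m j
      have hj0 : (0 : ℝ) < (j : ℝ) + 1 := by positivity
      have hmj : (0 : ℝ) < ((m - j : ℕ) : ℝ) := by
        have : 0 < m - j := by omega
        exact_mod_cast this
      have h5 : (k.choose (j + 1) : ℝ) / (m.choose (j + 1) : ℝ) =
          (k.choose j : ℝ) / (m.choose j : ℝ) * (((k - j : ℕ) : ℝ) / ((m - j : ℕ) : ℝ)) := by
        have e1 : (k.choose (j + 1) : ℝ) = k.choose j * ((k - j : ℕ) : ℝ) / (j + 1) := by
          rw [← h3]; field_simp
        have e2 : (m.choose (j + 1) : ℝ) = m.choose j * ((m - j : ℕ) : ℝ) / (j + 1) := by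
          rw [← h4]; field_simp
        rw [e1, e2]
        field_simp
      have h6 : ((k - j : ℕ) : ℝ) / ((m - j : ℕ) : ℝ) ≤ (k : ℝ) / m := by
        rw [div_le_div_iff₀ hmj hm0]
        by_cases hjk : j ≤ k
        · have hkm' : (k : ℝ) ≤ m := by exact_mod_cast hkm
          rw [Nat.cast_sub hjk, Nat.cast_sub (by omega)]
          nlinarith [Nat.cast_nonneg (α := ℝ) j]
        · rw [show k - j = 0 by omega, Nat.cast_zero, zero_mul]
          positivity
      rw [h5, pow_succ]
      exact mul_le_mul ih h6 (by positivity) (by positivity)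
    · have h1 : k.choose (j + 1) = 0 := Nat.choose_eq_zero_of_lt (by omega)
      rw [h1, Nat.cast_zero, zero_div]
      positivity

/-- the mean over the permutations of the squared inner product with one function -/
lemma avg_one {m k c : ℕ} (hkm : k ≤ m) {g : (Fin k → Bool) → Bool} (hg : Balanced c g)
    {s : Fin k → Fin m} (hs : Function.Injective s) (e : (Fin m → Bool) → ℝ) :
    ∑ σ : Equiv.Perm (Fin m), ((∑ x, sg (tgt g (σ ∘ s) x) * e x) / 2 ^ m) ^ 2 ≤
      (m.factorial : ℝ) * ((k.choose (c + 1) : ℝ) / (m.choose (c + 1) : ℝ)) *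
        ((∑ x, e x ^ 2) / 2 ^ m) := by
  have h1 : ∀ σ : Equiv.Perm (Fin m), ((∑ x, sg (tgt g (σ ∘ s) x) * e x) / 2 ^ m) ^ 2 ≤
      ∑ U ∈ univ.filter (fun U : Finset (Fin k) => c < U.card),
        hat e ((U.image s).image σ) ^ 2 := by
    intro σ
    refine (inner_tgt hg (σ.injective.comp hs) e).trans (le_of_eq ?_)
    refine Finset.sum_congr rfl fun U _ => ?_
    rw [Finset.image_image]
  refine (Finset.sum_le_sum fun σ _ => h1 σ).trans ?_
  rw [Finset.sum_comm]
  have h2 : ∀ U : Finset (Fin k), ∑ σ : Equiv.Perm (Fin m), hat e ((U.image s).image σ) ^ 2 =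
      (m.factorial : ℝ) / (m.choose U.card : ℝ) *
        ∑ T ∈ univ.filter (fun T : Finset (Fin m) => T.card = U.card), hat e T ^ 2 := by
    intro U
    have h3 := perm_sum (fun T => hat e T ^ 2) (U.image s)
    rw [Finset.card_image_of_injective _ hs] at h3
    exact h3
  simp_rw [h2]
  have h4 : ∑ U ∈ univ.filter (fun U : Finset (Fin k) => c < U.card),
      (m.factorial : ℝ) / (m.choose U.card : ℝ) *
        ∑ T ∈ univ.filter (fun T : Finset (Fin m) => T.card = U.card), hat e T ^ 2 =
      ∑ T : Finset (Fin m), (if c < T.card then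
        (m.factorial : ℝ) * ((k.choose T.card : ℝ) / (m.choose T.card : ℝ)) else 0) *
          hat e T ^ 2 := by
    simp_rw [Finset.mul_sum, Finset.sum_filter]
    rw [Finset.sum_congr rfl (g := fun U : Finset (Fin k) => ∑ T : Finset (Fin m),
      if T.card = U.card then (if c < T.card then (m.factorial : ℝ) / (m.choose T.card : ℝ) *
        hat e T ^ 2 else 0) else 0) (fun U _ => by
        split_ifs with h
        · refine Finset.sum_congr rfl fun T _ => ?_
          split_ifs with h5 h6 h6
          · rw [h5]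
          · exact absurd (h5 ▸ h) h6
          · rfl
        · symm
          apply Finset.sum_eq_zero
          intro T _
          split_ifs with h5 h6
          · exact absurd (h5 ▸ h6) h
          · rfl
          · rfl), Finset.sum_comm]
    refine Finset.sum_congr rfl fun T _ => ?_
    rw [← Finset.sum_filter, Finset.sum_const, nsmul_eq_mul]
    have h6 : (univ.filter (fun U : Finset (Fin k) => T.card = U.card)).card =
        k.choose T.card := by
      have h7 : univ.filter (fun U : Finset (Fin k) => T.card = U.card) =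
          Finset.powersetCard T.card univ := by
        ext U
        simp [Finset.mem_powersetCard, eq_comm]
      rw [h7, Finset.card_powersetCard, Finset.card_univ, Fintype.card_fin]
    rw [h6]
    split_ifs with h
    · ring
    · ring
  rw [h4, ← parseval, Finset.mul_sum]
  refine Finset.sum_le_sum fun T _ => ?_
  apply mul_le_mul_of_nonneg_right _ (sq_nonneg _)
  split_ifs with h
  · exact mul_le_mul_of_nonneg_left (ratio_mono hkm _ h) (Nat.cast_nonneg _)
  · positivity

/-- an orthonormal basis of a space of functions -/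
lemma exists_basis {Q : Type} [Fintype Q] (W : Submodule ℝ (Q → ℝ)) :
    ∃ e : Fin (Module.finrank ℝ W) → Q → ℝ, (∀ i, ∑ x, e i x ^ 2 = 1) ∧
      ∀ h ∈ W, ∀ f : Q → ℝ, (∑ x, f x * h x) ^ 2 ≤
        (∑ x, h x ^ 2) * ∑ i, (∑ x, f x * e i x) ^ 2 := by
  classical
  let L : EuclideanSpace ℝ Q ≃ₗ[ℝ] (Q → ℝ) := WithLp.linearEquiv 2 ℝ (Q → ℝ)
  let W' : Submodule ℝ (EuclideanSpace ℝ Q) := W.comap (L : EuclideanSpace ℝ Q →ₗ[ℝ] (Q → ℝ))
  have hfr : Module.finrank ℝ W' = Module.finrank ℝ W := by
    have h1 : W'.map (L : EuclideanSpace ℝ Q →ₗ[ℝ] (Q → ℝ)) = W :=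
      Submodule.map_comap_eq_of_surjective L.surjective W
    have h2 := (Submodule.equivMapOfInjective (L : EuclideanSpace ℝ Q →ₗ[ℝ] (Q → ℝ))
      L.injective W').finrank_eq
    rw [h1] at h2
    exact h2
  rw [← hfr]
  let b := stdOrthonormalBasis ℝ W'
  refine ⟨fun i x => (b i : EuclideanSpace ℝ Q) x, fun i => ?_, fun h hh f => ?_⟩
  · have h1 : ‖(b i : EuclideanSpace ℝ Q)‖ = 1 := b.orthonormal.1 i
    rw [EuclideanSpace.norm_eq, Real.sqrt_eq_one] at h1
    rw [← h1]
    refine Finset.sum_congr rfl fun x _ => ?_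
    rw [Real.norm_eq_abs, sq_abs]
  · let h' : EuclideanSpace ℝ Q := L.symm h
    have hh' : h' ∈ W' := by
      show L h' ∈ W
      rw [LinearEquiv.apply_symm_apply]
      exact hh
    let f' : EuclideanSpace ℝ Q := L.symm f
    have hin : ∀ u v : EuclideanSpace ℝ Q, inner ℝ u v = ∑ x, u x * v x := by
      intro u v
      rw [PiLp.inner_apply]
      refine Finset.sum_congr rfl fun x _ => ?_
      rw [RCLike.inner_apply, conj_trivial, mul_comm]
    have e1 : inner ℝ f' h' = ∑ x, f x * h x := hin _ _
    have e2 : ∀ i, inner ℝ f' (b i : EuclideanSpace ℝ Q) =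
        ∑ x, f x * (b i : EuclideanSpace ℝ Q) x := fun i => hin _ _
    have e3 : ∑ x, h x ^ 2 = ‖h'‖ ^ 2 := by
      rw [← real_inner_self_eq_norm_sq, hin]
      refine Finset.sum_congr rfl fun x _ => ?_
      rw [sq]
      rfl
    have e4 : (h' : EuclideanSpace ℝ Q) =
        ∑ i, (inner ℝ (b i) (⟨h', hh'⟩ : W')) • (b i : EuclideanSpace ℝ Q) := by
      have h5 := b.sum_repr' (⟨h', hh'⟩ : W')
      have h6 := congrArg (fun z : W' => (z : EuclideanSpace ℝ Q)) h5
      simp only [Submodule.coe_sum, Submodule.coe_smul] at h6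
      exact h6.symm
    have e5 : ∑ i, (inner ℝ (b i) (⟨h', hh'⟩ : W')) ^ 2 = ‖h'‖ ^ 2 := by
      have h5 := b.sum_sq_norm_inner_right (⟨h', hh'⟩ : W')
      simp only [Real.norm_eq_abs, sq_abs] at h5
      rw [h5]
      rfl
    rw [e3, ← e1, ← e5]
    have e6 : inner ℝ f' h' = ∑ i, (inner ℝ (b i) (⟨h', hh'⟩ : W')) *
        inner ℝ f' (b i : EuclideanSpace ℝ Q) := by
      conv_lhs => rw [e4]
      rw [inner_sum]
      refine Finset.sum_congr rfl fun i _ => ?_
      rw [inner_smul_right]
    rw [e6]
    refine (Finset.sum_mul_sq_le_sq_mul_sq _ _ _).trans (le_of_eq ?_)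
    congr 1
    refine Finset.sum_congr rfl fun i _ => ?_
    rw [e2]

end

end Pool.Agent.X230.FS
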