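import Mathlib
import Pool.Agent.X230.FS.Avg
import Pool.Agent.H963J.Tight

set_option autoImplicit false

/-!
# Feature spaces: how well can a space of functions fit a balanced junta?
-/

namespace Pool.Agent.X230.FS

open Finset Pool.Agent.H963J

noncomputable section

/-- The squared correlation of the real function `h` with the `±1`-valued labels `f`:
`E[f h] ^ 2 / E[h ^ 2]` for a uniform `x`. -/
def corrSq {m : ℕ} (f : (Fin m → Bool) → Bool) (h : (Fin m → Bool) → ℝ) : ℝ :=
  (∑ x, sg (f x) * h x) ^ 2 / (2 ^ m * ∑ x, h x ^ 2)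

/-- The best squared correlation with `f` of a function in the space `W`. -/
def fit {m : ℕ} (W : Submodule ℝ ((Fin m → Bool) → ℝ)) (f : (Fin m → Bool) → Bool) : ℝ :=
  ⨆ h : W, corrSq f h

lemma corrSq_nonneg {m : ℕ} (f : (Fin m → Bool) → Bool) (h : (Fin m → Bool) → ℝ) :
    0 ≤ corrSq f h := by
  unfold corrSq
  positivity

lemma sum_sg_sq {m : ℕ} (f : (Fin m → Bool) → Bool) : ∑ x, sg (f x) ^ 2 = (2 : ℝ) ^ m := by
  simp_rw [sg_sq]
  rw [Finset.sum_const, Finset.card_univ, Fintype.card_fun, Fintype.card_bool, Fintype.card_fin]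
  simp

lemma corrSq_le_one {m : ℕ} (f : (Fin m → Bool) → Bool) (h : (Fin m → Bool) → ℝ) :
    corrSq f h ≤ 1 := by
  unfold corrSq
  have h1 : 0 ≤ ∑ x, h x ^ 2 := Finset.sum_nonneg fun _ _ => sq_nonneg _
  apply div_le_one_of_le₀ _ (by positivity)
  refine (Finset.sum_mul_sq_le_sq_mul_sq _ _ _).trans ?_
  rw [sum_sg_sq]

lemma bdd_fit {m : ℕ} (W : Submodule ℝ ((Fin m → Bool) → ℝ)) (f : (Fin m → Bool) → Bool) :
    BddAbove (Set.range fun h : W => corrSq f h) :=
  ⟨1, by rintro _ ⟨h, rfl⟩; exact corrSq_le_one f h⟩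

lemma le_fit {m : ℕ} {W : Submodule ℝ ((Fin m → Bool) → ℝ)} {h : (Fin m → Bool) → ℝ} (hh : h ∈ W)
    (f : (Fin m → Bool) → Bool) : corrSq f h ≤ fit W f :=
  le_ciSup (bdd_fit W f) ⟨h, hh⟩

lemma fit_nonneg {m : ℕ} (W : Submodule ℝ ((Fin m → Bool) → ℝ)) (f : (Fin m → Bool) → Bool) :
    0 ≤ fit W f := (corrSq_nonneg f 0).trans (le_fit W.zero_mem f)

/-- **A feature space fits a random placement badly.** -/
theorem fit_avg {m k c : ℕ} (hkm : k ≤ m) {g : (Fin k → Bool) → Bool} (hg : Balanced c g)
    {s : Fin k → Fin m} (hs : Function.Injective s) (W : Submodule ℝ ((Fin m → Bool) → ℝ)) :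
    (∑ σ : Equiv.Perm (Fin m), fit W (tgt g (σ ∘ s))) / (m.factorial : ℝ) ≤
      (Module.finrank ℝ W : ℝ) * ((k.choose (c + 1) : ℝ) / (m.choose (c + 1) : ℝ)) := by
  obtain ⟨e, he, hW⟩ := exists_basis W
  have h2m : (0 : ℝ) < 2 ^ m := by positivity
  have h1 : ∀ σ : Equiv.Perm (Fin m), fit W (tgt g (σ ∘ s)) ≤
      2 ^ m * ∑ i, ((∑ x, sg (tgt g (σ ∘ s) x) * e i x) / 2 ^ m) ^ 2 := by
    intro σ
    apply ciSup_le
    rintro ⟨h, hh⟩
    have h3 := hW h hh (fun x => sg (tgt g (σ ∘ s) x))
    have h4 : 2 ^ m * ∑ i, ((∑ x, sg (tgt g (σ ∘ s) x) * e i x) / 2 ^ m) ^ 2 =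
        (∑ i, (∑ x, sg (tgt g (σ ∘ s) x) * e i x) ^ 2) / (2 ^ m : ℝ) := by
      rw [Finset.mul_sum, Finset.sum_div]
      refine Finset.sum_congr rfl fun i _ => ?_
      field_simp
    rw [h4]
    have h5 : 0 ≤ ∑ i, (∑ x, sg (tgt g (σ ∘ s) x) * e i x) ^ 2 :=
      Finset.sum_nonneg fun _ _ => sq_nonneg _
    show corrSq (tgt g (σ ∘ s)) h ≤ _
    unfold corrSq
    rcases (Finset.sum_nonneg fun (x : Fin m → Bool) _ => sq_nonneg (h x)).eq_or_lt' with h6 | h6
    · rw [h6, mul_zero, div_zero]
      positivity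
    · rw [div_le_div_iff₀ (by positivity) h2m]
      nlinarith
  have h2 : ∑ σ : Equiv.Perm (Fin m), fit W (tgt g (σ ∘ s)) ≤
      (m.factorial : ℝ) * ((Module.finrank ℝ W : ℝ) *
        ((k.choose (c + 1) : ℝ) / (m.choose (c + 1) : ℝ))) := by
    refine (Finset.sum_le_sum fun σ _ => h1 σ).trans ?_
    rw [← Finset.mul_sum, Finset.sum_comm]
    have h3 : ∀ i, ∑ σ : Equiv.Perm (Fin m), ((∑ x, sg (tgt g (σ ∘ s) x) * e i x) / 2 ^ m) ^ 2 ≤
        (m.factorial : ℝ) * ((k.choose (c + 1) : ℝ) / (m.choose (c + 1) : ℝ)) * (1 / 2 ^ m) := by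
      intro i
      have := avg_one hkm hg hs (e i)
      rwa [he i] at this
    refine (mul_le_mul_of_nonneg_left (Finset.sum_le_sum fun i _ => h3 i) h2m.le).trans ?_
    rw [Finset.sum_const, Finset.card_univ, Fintype.card_fin, nsmul_eq_mul]
    apply le_of_eq
    field_simp
  rw [div_le_iff₀ (by positivity)]
  linarith

/-- A learner which works in two phases. From the attribute vectors `X` and the labels of `N`
examples and from internal randomness it computes a space of dimension at most `D` of real functions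
of the `m` attributes (the feature space). The space may depend on `X` and on the randomness in an
arbitrary way and on the labels through one of `Q` messages, `info`. -/
structure FeatureLearner (m N D Q : ℕ) where
  Ω : Type
  fin : Fintype Ω
  prob : Ω → ℝ
  prob_nonneg : ∀ ω, 0 ≤ prob ω
  prob_sum : ∑ ω, prob ω = 1
  info : Ω → (Fin N → Fin m → Bool) → (Fin N → Bool) → Fin Q
  space : Ω → (Fin N → Fin m → Bool) → Fin Q → Submodule ℝ ((Fin m → Bool) → ℝ)
  dim : ∀ ω X q, Module.finrank ℝ (space ω X q) ≤ D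

/-- The feature space for the target with the relevant variables `s`. -/
def FeatureLearner.out {m k N D Q : ℕ} (L : FeatureLearner m N D Q) (g : (Fin k → Bool) → Bool)
    (s : Fin k → Fin m) (ω : L.Ω) (X : Fin N → Fin m → Bool) :
    Submodule ℝ ((Fin m → Bool) → ℝ) :=
  L.space ω X (L.info ω X (labels g s X))

/-- The expectation, over the randomness and `N` uniform examples, of the best squared correlation
with the target of a function in the feature space. -/
def FeatureLearner.value {m k N D Q : ℕ} (L : FeatureLearner m N D Q)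
    (g : (Fin k → Bool) → Bool) (s : Fin k → Fin m) : ℝ :=
  letI := L.fin
  ∑ ω, L.prob ω * ((∑ X : Fin N → Fin m → Bool, fit (L.out g s ω X) (tgt g s)) / 2 ^ (N * m))

open Classical in
/-- The probability, over the randomness and `N` uniform examples, that some function in the
feature space has squared correlation at least `r` with the target. -/
def FeatureLearner.success {m k N D Q : ℕ} (L : FeatureLearner m N D Q) (r : ℝ)
    (g : (Fin k → Bool) → Bool) (s : Fin k → Fin m) : ℝ :=
  letI := L.fin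
  ∑ ω, L.prob ω * (((univ.filter (fun X : Fin N → Fin m → Bool =>
    ∃ h ∈ L.out g s ω X, r ≤ corrSq (tgt g s) h)).card : ℝ) / 2 ^ (N * m))

theorem value_avg {m k c N D Q : ℕ} (hkm : k ≤ m) {g : (Fin k → Bool) → Bool}
    (hg : Balanced c g) {s : Fin k → Fin m} (hs : Function.Injective s)
    (L : FeatureLearner m N D Q) :
    (∑ σ : Equiv.Perm (Fin m), L.value g (σ ∘ s)) / (m.factorial : ℝ) ≤
      (Q * D : ℝ) * ((k.choose (c + 1) : ℝ) / (m.choose (c + 1) : ℝ)) := by
  letI := L.fin
  set κ : ℝ := (k.choose (c + 1) : ℝ) / (m.choose (c + 1) : ℝ) with hκ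
  have hκ0 : 0 ≤ κ := by positivity
  have hf : (0 : ℝ) < m.factorial := by exact_mod_cast m.factorial_pos
  have h1 : ∀ (ω : L.Ω) (X : Fin N → Fin m → Bool),
      ∑ σ : Equiv.Perm (Fin m), fit (L.out g (σ ∘ s) ω X) (tgt g (σ ∘ s)) ≤
        (m.factorial : ℝ) * ((Q * D : ℝ) * κ) := by
    intro ω X
    calc ∑ σ : Equiv.Perm (Fin m), fit (L.out g (σ ∘ s) ω X) (tgt g (σ ∘ s))
        ≤ ∑ σ : Equiv.Perm (Fin m), ∑ q : Fin Q, fit (L.space ω X q) (tgt g (σ ∘ s)) := by
          refine Finset.sum_le_sum fun σ _ => ?_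
          exact Finset.single_le_sum (f := fun q => fit (L.space ω X q) (tgt g (σ ∘ s)))
            (fun q _ => fit_nonneg _ _) (Finset.mem_univ _)
      _ = ∑ q : Fin Q, ∑ σ : Equiv.Perm (Fin m), fit (L.space ω X q) (tgt g (σ ∘ s)) :=
          Finset.sum_comm
      _ ≤ ∑ q : Fin Q, (m.factorial : ℝ) * (D * κ) := by
          refine Finset.sum_le_sum fun q _ => ?_
          have h2 := fit_avg hkm hg hs (L.space ω X q)
          rw [div_le_iff₀ hf] at h2
          refine h2.trans ?_
          rw [mul_comm]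
          apply mul_le_mul_of_nonneg_left _ hf.le
          apply mul_le_mul_of_nonneg_right _ hκ0
          exact_mod_cast L.dim ω X q
      _ = _ := by
          rw [Finset.sum_const, Finset.card_univ, Fintype.card_fin, nsmul_eq_mul]
          ring
  have h2 : ∑ σ : Equiv.Perm (Fin m), L.value g (σ ∘ s) ≤
      (m.factorial : ℝ) * ((Q * D : ℝ) * κ) := by
    unfold FeatureLearner.value
    rw [Finset.sum_comm]
    have h3 : ∀ ω : L.Ω, ∑ σ : Equiv.Perm (Fin m), L.prob ω *
        ((∑ X : Fin N → Fin m → Bool, fit (L.out g (σ ∘ s) ω X) (tgt g (σ ∘ s))) / 2 ^ (N * m)) ≤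
        L.prob ω * ((m.factorial : ℝ) * ((Q * D : ℝ) * κ)) := by
      intro ω
      rw [← Finset.mul_sum, ← Finset.sum_div, Finset.sum_comm]
      apply mul_le_mul_of_nonneg_left _ (L.prob_nonneg ω)
      rw [div_le_iff₀ (by positivity)]
      refine (Finset.sum_le_sum fun X _ => h1 ω X).trans (le_of_eq ?_)
      rw [Finset.sum_const, Finset.card_univ, nsmul_eq_mul, mul_comm]
      congr 1
      rw [Fintype.card_fun, Fintype.card_fun, Fintype.card_bool, Fintype.card_fin,
        Fintype.card_fin, ← pow_mul, mul_comm m N]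
      push_cast
      rfl
    refine (Finset.sum_le_sum fun ω _ => h3 ω).trans (le_of_eq ?_)
    rw [← Finset.sum_mul, L.prob_sum, one_mul]
  rw [div_le_iff₀ hf]
  linarith

lemma success_le_value {m k N D Q : ℕ} (L : FeatureLearner m N D Q) {r : ℝ} (hr : 0 < r)
    (g : (Fin k → Bool) → Bool) (s : Fin k → Fin m) :
    L.success r g s ≤ L.value g s / r := by
  letI := L.fin
  unfold FeatureLearner.success FeatureLearner.value
  rw [Finset.sum_div]
  refine Finset.sum_le_sum fun ω _ => ?_
  rw [mul_div_assoc]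
  apply mul_le_mul_of_nonneg_left _ (L.prob_nonneg ω)
  rw [div_right_comm]
  apply div_le_div_of_nonneg_right _ (by positivity)
  rw [le_div_iff₀ hr, Finset.card_filter]
  push_cast
  rw [Finset.sum_mul]
  refine Finset.sum_le_sum fun X _ => ?_
  split_ifs with h
  · obtain ⟨h, hh, hr⟩ := h
    rw [one_mul]
    exact hr.trans (le_fit hh _)
  · rw [zero_mul]
    exact fit_nonneg _ _

/-- For the parity the bound is attained, for all dimensions. -/
theorem parity_sharp {m k D : ℕ} (hD : D ≤ m.choose k) {s : Fin k → Fin m}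
    (hs : Function.Injective s) :
    ∃ W : Submodule ℝ ((Fin m → Bool) → ℝ), Module.finrank ℝ W ≤ D ∧
      (∑ σ : Equiv.Perm (Fin m), fit W (tgt (parity k) (σ ∘ s))) / (m.factorial : ℝ) =
        D / (m.choose k : ℝ) := by
  classical
  have hcard : (Finset.powersetCard k (univ : Finset (Fin m))).card = m.choose k := by
    rw [Finset.card_powersetCard, Finset.card_univ, Fintype.card_fin]
  obtain ⟨𝒯, h𝒯, hcT⟩ := Finset.exists_subset_card_eq (hcard ▸ hD)
  let W : Submodule ℝ ((Fin m → Bool) → ℝ) :=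
    Submodule.span ℝ ((fun T : Finset (Fin m) => fun x : Fin m → Bool => chi x T) '' (𝒯 : Set _))
  have hfit : ∀ σ : Equiv.Perm (Fin m), fit W (tgt (parity k) (σ ∘ s)) =
      if ((univ.image s).image σ) ∈ 𝒯 then 1 else 0 := by
    intro σ
    have e1 : ∀ x, sg (tgt (parity k) (σ ∘ s) x) = chi x ((univ.image s).image σ) := by
      intro x
      rw [sg_tgt_parity (σ.injective.comp hs), cr_eq, Finset.image_image]
    split_ifs with h
    · apply le_antisymm
      · exact ciSup_le fun h => corrSq_le_one _ _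
      · have h1 : (fun x : Fin m → Bool => chi x ((univ.image s).image σ)) ∈ W :=
          Submodule.subset_span ⟨_, h, rfl⟩
        refine le_trans (le_of_eq ?_) (le_fit h1 _)
        unfold corrSq
        simp_rw [e1, ← sq, chi_sq]
        rw [Finset.sum_const, Finset.card_univ, Fintype.card_fun, Fintype.card_bool,
          Fintype.card_fin]
        simp only [nsmul_eq_mul, mul_one]
        push_cast
        rw [← sq, div_self (by positivity)]
    · apply le_antisymm
      · apply ciSup_le
        rintro ⟨h0, hh⟩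
        have h2 : ∑ x, sg (tgt (parity k) (σ ∘ s) x) * h0 x = 0 := by
          refine Submodule.span_induction (p := fun h _ =>
            ∑ x, sg (tgt (parity k) (σ ∘ s) x) * h x = 0) ?_ ?_ ?_ ?_ hh
          · rintro _ ⟨T, hT, rfl⟩
            simp_rw [e1, chi_mul]
            have h3 := E_cr (symmDiff ((univ.image s).image σ) T) (by
              intro h4
              rw [← Finset.bot_eq_empty, symmDiff_eq_bot] at h4
              exact h (h4 ▸ hT))
            unfold E at h3
            rcases div_eq_zero_iff.1 h3 with h5 | h5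
            · exact h5
            · exfalso
              have : (Fintype.card (Fin m → Bool)) ≠ 0 := Fintype.card_ne_zero
              exact this (by exact_mod_cast h5)
          · simp
          · intro a b _ _ ha hb
            simp only [Pi.add_apply, mul_add, Finset.sum_add_distrib, ha, hb, add_zero]
          · intro a b _ hb
            simp only [Pi.smul_apply, smul_eq_mul]
            rw [Finset.sum_congr rfl (fun x _ => mul_left_comm _ a _), ← Finset.mul_sum, hb,
              mul_zero]
        show corrSq _ h0 ≤ 0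
        unfold corrSq
        rw [h2]
        simp
      · exact fit_nonneg _ _
  refine ⟨W, ?_, ?_⟩
  · have h1 := finrank_span_le_card (R := ℝ) ((fun T : Finset (Fin m) =>
      fun x : Fin m → Bool => chi x T) '' (𝒯 : Set (Finset (Fin m))))
    refine h1.trans ?_
    rw [Set.toFinset_card, Fintype.card_eq_nat_card, Nat.card_coe_set_eq]
    refine (Set.ncard_image_le (Finset.finite_toSet _)).trans ?_
    rw [Set.ncard_coe_finset, hcT]
  · simp_rw [hfit]
    have h1 := perm_sum (fun T => if T ∈ 𝒯 then (1 : ℝ) else 0) (univ.image s)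
    rw [h1, Finset.card_image_of_injective _ hs, Finset.card_univ, Fintype.card_fin]
    have h2 : ∑ T ∈ univ.filter (fun T : Finset (Fin m) => T.card = k),
        (if T ∈ 𝒯 then (1 : ℝ) else 0) = D := by
      rw [← Finset.sum_filter, Finset.sum_const, nsmul_eq_mul, mul_one, Finset.filter_filter]
      have h3 : univ.filter (fun T : Finset (Fin m) => T.card = k ∧ T ∈ 𝒯) = 𝒯 := by
        ext T
        simp only [Finset.mem_filter, Finset.mem_univ, true_and]
        exact ⟨fun h => h.2, fun h => ⟨(Finset.mem_powersetCard.1 (h𝒯 h)).2, h⟩⟩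
      rw [h3, hcT]
    rw [h2]
    have : (m.factorial : ℝ) ≠ 0 := by exact_mod_cast m.factorial_ne_zero
    field_simp

/-- A set with advantage `a` gives a space of functions with squared correlation `4 a ^ 2`. -/
theorem fit_of_adv {m : ℕ} (f : (Fin m → Bool) → Bool) (S : Finset (Fin m))
    (W : Submodule ℝ ((Fin m → Bool) → ℝ))
    (hW : ∀ h : (Fin m → Bool) → ℝ, (∀ x y, (∀ j ∈ S, x j = y j) → h x = h y) → h ∈ W) :
    4 * adv f S ^ 2 ≤ fit W f := by
  classical
  set cl : (Fin m → Bool) → Finset (Fin m → Bool) := fun z =>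
    univ.filter (fun x : Fin m → Bool => ∀ j ∈ S, x j = z j) with hcl
  set B : (Fin m → Bool) → ℝ := fun z => ∑ x ∈ cl z, sg (f x) with hB
  have hmem : ∀ x z, x ∈ cl z ↔ ∀ j ∈ S, x j = z j := fun x z => by
    rw [hcl]
    simp
  have hcl_congr : ∀ x z, x ∈ cl z → cl x = cl z := by
    intro x z hx
    ext w
    rw [hmem, hmem]
    exact ⟨fun h j hj => (h j hj).trans ((hmem x z).1 hx j hj),
      fun h j hj => (h j hj).trans ((hmem x z).1 hx j hj).symm⟩
  have hpos : ∀ z, 0 < ((cl z).card : ℝ) := by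
    intro z
    have : z ∈ cl z := (hmem z z).2 fun _ _ => rfl
    exact_mod_cast Finset.card_pos.2 ⟨z, this⟩
  have hsymm : ∀ x z, x ∈ cl z ↔ z ∈ cl x := by
    intro x z
    rw [hmem, hmem]
    exact ⟨fun h j hj => (h j hj).symm, fun h j hj => (h j hj).symm⟩
  -- the conditional expectation
  set h : (Fin m → Bool) → ℝ := fun z => B z / (cl z).card with hh
  have hhW : h ∈ W := by
    apply hW
    intro x y hxy
    have : cl x = cl y := hcl_congr x y ((hmem x y).2 hxy)
    simp only [hh, hB]
    rw [this]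
  have h1 : ∑ x, sg (f x) * h x = ∑ x, h x ^ 2 := by
    have e1 : ∑ x, h x ^ 2 = ∑ x, ∑ z, if z ∈ cl x then
        sg (f z) * h z / (cl z).card else 0 := by
      refine Finset.sum_congr rfl fun x _ => ?_
      rw [← Finset.sum_filter]
      have e2 : univ.filter (fun z => z ∈ cl x) = cl x := by
        ext z
        simp
      rw [e2, sq]
      have e3 : ∀ z ∈ cl x, sg (f z) * h z / (cl z).card = sg (f z) * (h x / (cl x).card) := by
        intro z hz
        have : cl z = cl x := hcl_congr z x hz
        simp only [hh, hB]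
        rw [this]
        ring
      rw [Finset.sum_congr rfl e3, ← Finset.sum_mul]
      simp only [hh, hB]
      ring
    rw [e1, Finset.sum_comm]
    refine Finset.sum_congr rfl fun z _ => ?_
    rw [← Finset.sum_filter]
    have e2 : univ.filter (fun x => z ∈ cl x) = cl z := by
      ext x
      simp only [Finset.mem_filter, Finset.mem_univ, true_and]
      exact (hsymm x z).symm
    rw [e2, Finset.sum_const, nsmul_eq_mul]
    field_simp [(hpos z).ne']
  have h2 : ∀ z, |h z| = 2 * |((univ.filter (fun x : Fin m → Bool =>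
      (∀ j ∈ S, x j = z j) ∧ f x = true)).card : ℝ) / ((univ.filter (fun x : Fin m → Bool =>
        ∀ j ∈ S, x j = z j)).card : ℝ) - 1 / 2| := by
    intro z
    have e1 : B z = 2 * ((univ.filter (fun x : Fin m → Bool =>
      (∀ j ∈ S, x j = z j) ∧ f x = true)).card : ℝ) - (cl z).card := by
      have e2 : ∀ x, sg (f x) = 2 * (if f x = true then (1 : ℝ) else 0) - 1 := by
        intro x
        unfold sg
        split_ifs <;> norm_num
      simp only [hB]
      simp_rw [e2]
      rw [Finset.sum_sub_distrib, ← Finset.mul_sum, ← Finset.sum_filter, Finset.sum_const,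
        Finset.sum_const, nsmul_eq_mul, nsmul_eq_mul, mul_one, mul_one, hcl,
        Finset.filter_filter]
    have e3 : h z = 2 * (((univ.filter (fun x : Fin m → Bool =>
      (∀ j ∈ S, x j = z j) ∧ f x = true)).card : ℝ) / ((cl z).card : ℝ) - 1 / 2) := by
      simp only [hh]
      rw [e1]
      have := (hpos z).ne'
      field_simp
    rw [e3, abs_mul, abs_two]
  have h3 : 2 * adv f S = (∑ z, |h z|) / 2 ^ m := by
    unfold adv
    simp_rw [h2]
    rw [← Finset.mul_sum, mul_div_assoc]
  have h4 : (∑ z, |h z|) ^ 2 ≤ 2 ^ m * ∑ z, h z ^ 2 := by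
    have := Finset.sum_mul_sq_le_sq_mul_sq (univ : Finset (Fin m → Bool)) (fun _ => (1 : ℝ))
      (fun z => |h z|)
    simp only [one_mul, one_pow, sq_abs] at this
    rw [Finset.sum_const, Finset.card_univ, Fintype.card_fun, Fintype.card_bool,
      Fintype.card_fin] at this
    simpa using this
  refine le_trans ?_ (le_fit hhW f)
  have h5 : 4 * adv f S ^ 2 = (2 * adv f S) ^ 2 := by ring
  rw [h5, h3]
  unfold corrSq
  rw [h1]
  have h6 : (0 : ℝ) < 2 ^ m := by positivity
  rcases (Finset.sum_nonneg fun (x : Fin m → Bool) _ => sq_nonneg (h x)).eq_or_lt' with h7 | h7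
  · rw [h7] at h4 ⊢
    have h8 : (∑ z, |h z|) ^ 2 = 0 := le_antisymm (by simpa using h4) (sq_nonneg _)
    rw [div_pow, h8]
    simp
  · rw [div_pow, sq (∑ x, h x ^ 2), mul_div_mul_right _ _ h7.ne', div_le_div_iff₀ (by positivity) h6]
    nlinarith [mul_le_mul_of_nonneg_right h4 h6.le]

end

end Pool.Agent.X230.FS
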